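import Pool.Agent.P8H16.XP.Stm

/-!
# Package COL of the project XP (MP_45dba8_co): the colouring of the extended Petersen graph
-/

set_option autoImplicit false
set_option linter.all false

open Finset

namespace Pool.Agent.P8H73.XP

open Pool.Agent.P8H16.XP (Good S_COL)

variable {k : ℕ}

/-- The colour of the edge with index `J`. -/
def phi (c1 c2 : Fin (2 * k + 1)) (J : ZMod (4 * k + 1)) : Fin (2 * k + 1) :=
  if J.val = 0 then 0 else if Odd J.val then c1 else c2

lemma val_sub_one' (hk : 2 ≤ k) (J : ZMod (4 * k + 1)) :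
    (J.val = 0 ∧ (J - 1).val = 4 * k) ∨ (1 ≤ J.val ∧ (J - 1).val = J.val - 1) := by
  haveI : Fact (1 < 4 * k + 1) := ⟨by omega⟩
  rcases Nat.eq_zero_or_pos J.val with h | h
  · left
    refine ⟨h, ?_⟩
    have hJ : J = 0 := (ZMod.val_eq_zero J).1 h
    rw [hJ, zero_sub]
    exact ZMod.val_neg_one (4 * k)
  · right
    refine ⟨h, ?_⟩
    rw [ZMod.val_sub, ZMod.val_one]
    rw [ZMod.val_one]
    exact h

lemma phi_mem (c1 c2 : Fin (2 * k + 1)) (J : ZMod (4 * k + 1)) :
    phi c1 c2 J = 0 ∨ phi c1 c2 J = c1 ∨ phi c1 c2 J = c2 := by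
  unfold phi
  split_ifs
  · exact Or.inl rfl
  · exact Or.inr (Or.inl rfl)
  · exact Or.inr (Or.inr rfl)

lemma phi_zero {c1 c2 : Fin (2 * k + 1)} (h1 : c1 ≠ 0) (h2 : c2 ≠ 0) {J : ZMod (4 * k + 1)}
    (h : phi c1 c2 J = 0) : J = 0 := by
  unfold phi at h
  split_ifs at h with h3
  · exact (ZMod.val_eq_zero J).1 h3
  · exact absurd h h1
  · exact absurd h h2

lemma phi_ne (hk : 2 ≤ k) {c1 c2 : Fin (2 * k + 1)} (h1 : c1 ≠ 0) (h2 : c2 ≠ 0) (h12 : c1 ≠ c2)
    (J : ZMod (4 * k + 1)) : phi c1 c2 J ≠ phi c1 c2 (J - 1) := by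
  rcases val_sub_one' hk J with ⟨h, h'⟩ | ⟨h, h'⟩
  · have h3 : ¬ (4 * k = 0) := by omega
    have h4 : ¬ Odd (4 * k) := by
      rw [Nat.not_odd_iff_even]
      exact ⟨2 * k, by ring⟩
    unfold phi
    rw [h, h', if_pos rfl, if_neg h3, if_neg h4]
    exact h2.symm
  · have hJ : phi c1 c2 J = if Odd J.val then c1 else c2 := by
      unfold phi
      exact if_neg (by omega)
    by_cases h3 : J.val = 1
    · have h4 : phi c1 c2 (J - 1) = 0 := by
        unfold phi
        exact if_pos (by omega)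
      rw [hJ, h4, h3, if_pos odd_one]
      exact h1
    · have hJ' : phi c1 c2 (J - 1) = if Odd (J.val - 1) then c1 else c2 := by
        unfold phi
        rw [h']
        exact if_neg (by omega)
      rw [hJ, hJ']
      by_cases h4 : Odd J.val
      · have h5 : ¬ Odd (J.val - 1) := by
          rw [Nat.odd_iff] at h4 ⊢
          omega
        rw [if_pos h4, if_neg h5]
        exact h12
      · have h5 : Odd (J.val - 1) := by
          rw [Nat.odd_iff] at h4 ⊢
          omega
        rw [if_neg h4, if_pos h5]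
        exact h12.symm

lemma phi_at_zero (c1 c2 : Fin (2 * k + 1)) : phi c1 c2 (0 : ZMod (4 * k + 1)) = 0 := by
  unfold phi
  rw [ZMod.val_zero, if_pos rfl]

lemma phi_at_one (hk : 2 ≤ k) (c1 c2 : Fin (2 * k + 1)) : phi c1 c2 (1 : ZMod (4 * k + 1)) = c1 := by
  haveI : Fact (1 < 4 * k + 1) := ⟨by omega⟩
  unfold phi
  rw [ZMod.val_one, if_neg one_ne_zero, if_pos odd_one]

lemma phi_at_neg_one (hk : 2 ≤ k) (c1 c2 : Fin (2 * k + 1)) :
    phi c1 c2 (0 - 1 : ZMod (4 * k + 1)) = c2 := by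
  rcases val_sub_one' hk (0 : ZMod (4 * k + 1)) with ⟨h, h'⟩ | ⟨h, h'⟩
  · have h3 : ¬ (4 * k = 0) := by omega
    have h4 : ¬ Odd (4 * k) := by
      rw [Nat.not_odd_iff_even]
      exact ⟨2 * k, by ring⟩
    unfold phi
    rw [h', if_neg h3, if_neg h4]
  · rw [ZMod.val_zero] at h
    omega

/-- The colour of the edge of distance `d` which leaves (`b = true`) or enters (`b = false`) the vertex `u`. -/
noncomputable def g [Fact (4 * k + 1).Prime] (a : ℕ → ZMod (4 * k + 1)) (m : ZMod (4 * k + 1) → Fin (2 * k + 1)) (u : ZMod (4 * k + 1)) (d : ℕ)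
    (b : Bool) : Fin (2 * k + 1) :=
  phi (m (a d)) (m (a d + d)) (((if b = true then u else u - d) - a d) / (d : ZMod (4 * k + 1)))

section

variable [Fact (4 * k + 1).Prime] {a : ℕ → ZMod (4 * k + 1)} {m : ZMod (4 * k + 1) → Fin (2 * k + 1)}
  {u : ZMod (4 * k + 1)} {d : ℕ}

lemma g_true : g a m u d true = phi (m (a d)) (m (a d + d)) ((u - a d) / (d : ZMod (4 * k + 1))) := by
  unfold g
  rw [if_pos rfl]

lemma g_false (hd : (d : ZMod (4 * k + 1)) ≠ 0) :
    g a m u d false = phi (m (a d)) (m (a d + d)) ((u - a d) / (d : ZMod (4 * k + 1)) - 1) := by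
  unfold g
  rw [if_neg (by decide)]
  congr 1
  field_simp
  ring

lemma g_mem (b : Bool) : g a m u d b = 0 ∨ g a m u d b = m (a d) ∨ g a m u d b = m (a d + d) :=
  phi_mem _ _ _

lemma g_zero (hd : (d : ZMod (4 * k + 1)) ≠ 0) (h1 : m (a d) ≠ 0) (h2 : m (a d + d) ≠ 0) {b : Bool}
    (h : g a m u d b = 0) : u = a d ∨ u = a d + d := by
  cases b with
  | true =>
    rw [g_true] at h
    have h3 := phi_zero h1 h2 h
    left
    rw [div_eq_zero_iff] at h3
    rcases h3 with h3 | h3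
    · exact sub_eq_zero.1 h3
    · exact absurd h3 hd
  | false =>
    rw [g_false hd] at h
    have h3 := phi_zero h1 h2 h
    right
    rw [sub_eq_zero, div_eq_one_iff_eq hd] at h3
    rw [← h3]
    ring

lemma g_ne (hk : 2 ≤ k) (hd : (d : ZMod (4 * k + 1)) ≠ 0) (h1 : m (a d) ≠ 0) (h2 : m (a d + d) ≠ 0)
    (h12 : m (a d) ≠ m (a d + d)) : g a m u d true ≠ g a m u d false := by
  rw [g_true, g_false hd]
  exact phi_ne hk h1 h2 h12 _

lemma g_at (hk : 2 ≤ k) (hd : (d : ZMod (4 * k + 1)) ≠ 0) (h1 : m (a d) ≠ 0) (h2 : m (a d + d) ≠ 0)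
    (h12 : m (a d) ≠ m (a d + d)) (b : Bool) (h : u = a d ∨ u = a d + d) : g a m u d b ≠ m u := by
  rcases h with h | h
  · cases b with
    | true =>
      rw [g_true, h, sub_self, zero_div, phi_at_zero]
      exact h1.symm
    | false =>
      rw [g_false hd, h, sub_self, zero_div, phi_at_neg_one hk]
      exact h12.symm
  · have h3 : (u - a d) / (d : ZMod (4 * k + 1)) = 1 := by
      rw [h, add_sub_cancel_left, div_self hd]
    cases b with
    | true =>
      rw [g_true, h3, phi_at_one hk, h]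
      exact h12
    | false =>
      rw [g_false hd, h3, sub_self, phi_at_zero, h]
      exact h2.symm

end

lemma fin_two : ∀ i j : Fin 2, i ≠ j → (i = 0 ∧ j = 1) ∨ (i = 1 ∧ j = 0) := by
  decide

/-- The edge of distance `d` in the layer `i` which leaves (`b = true`) or enters (`b = false`) the vertex `u`. -/
def E (u : ZMod (4 * k + 1)) (i : Fin 2) (d : ℕ) (b : Bool) : Sym2 (ZMod (4 * k + 1) × Fin 2) :=
  if b = true then s((u, i), (u + d, i)) else s((u - d, i), (u, i))

theorem col : S_COL := by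
  classical
  intro k hk hp S hS hcard a ha hv G hG
  haveI : Fact (4 * k + 1).Prime := ⟨hp⟩
  -- the vertices of the edges `e_d`
  set W : Finset (ZMod (4 * k + 1)) := S.biUnion (fun d => {a d, a d + d}) with hW
  have hWcard : W.card ≤ 2 * k := by
    refine (Finset.card_biUnion_le_card_mul S _ 2 fun d _ => Finset.card_le_two).trans ?_
    rw [hcard]
    omega
  have hWmem : ∀ v, v ∈ W ↔ ∃ d ∈ Icc 1 (2 * k), d ∈ S ∧ (v = a d ∨ v = a d + d) := by
    intro v
    rw [hW, mem_biUnion]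
    constructor
    · rintro ⟨d, hd, hvd⟩
      rw [mem_insert, mem_singleton] at hvd
      exact ⟨d, hS hd, hd, hvd⟩
    · rintro ⟨d, _, hd, hvd⟩
      exact ⟨d, hd, by rw [mem_insert, mem_singleton]; exact hvd⟩
  obtain ⟨e⟩ : Nonempty (W ↪ Fin (2 * k)) :=
    Function.Embedding.nonempty_of_card_le (by rw [Fintype.card_coe, Fintype.card_fin]; exact hWcard)
  obtain ⟨m, hm0, hm1, hminj⟩ : ∃ m : ZMod (4 * k + 1) → Fin (2 * k + 1), (∀ v, v ∉ W → m v = 0) ∧
      (∀ v ∈ W, m v ≠ 0) ∧ ∀ v ∈ W, ∀ w ∈ W, m v = m w → v = w := by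
    refine ⟨fun v => if h : v ∈ W then (e ⟨v, h⟩).succ else 0, fun v hv => dif_neg hv, fun v hv => ?_,
      fun v hv w hw h => ?_⟩
    · beta_reduce
      rw [dif_pos hv]
      exact Fin.succ_ne_zero _
    · beta_reduce at h
      rw [dif_pos hv, dif_pos hw] at h
      have h1 := e.injective (Fin.succ_injective _ h)
      exact congrArg Subtype.val h1
  -- both ends of `e_d` belong to `W`, for all `d`
  have hends : ∀ d ∈ Icc 1 (2 * k), ∀ v, (v = a d ∨ v = a d + d) → v ∈ W := by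
    intro d hd v hvd
    rw [hWmem]
    by_cases hdS : d ∈ S
    · exact ⟨d, hd, hdS, hvd⟩
    · exact (hv v).2 ⟨d, hd, hdS, hvd⟩
  have hd0 : ∀ d ∈ Icc 1 (2 * k), (d : ZMod (4 * k + 1)) ≠ 0 := by
    intro d hd h
    rw [mem_Icc] at hd
    rw [ZMod.natCast_eq_zero_iff] at h
    have := Nat.le_of_dvd (by omega) h
    omega
  have hm1' : ∀ d ∈ Icc 1 (2 * k), m (a d) ≠ 0 := fun d hd => hm1 _ (hends d hd _ (Or.inl rfl))
  have hm2' : ∀ d ∈ Icc 1 (2 * k), m (a d + d) ≠ 0 := fun d hd => hm1 _ (hends d hd _ (Or.inr rfl))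
  have hm12 : ∀ d ∈ Icc 1 (2 * k), m (a d) ≠ m (a d + d) := by
    intro d hd h
    have h1 := hminj _ (hends d hd _ (Or.inl rfl)) _ (hends d hd _ (Or.inr rfl)) h
    apply hd0 d hd
    have h2 : a d + 0 = a d + d := by rw [add_zero]; exact h1
    exact (add_left_cancel h2).symm
  -- two distances of one class
  have hdiff : ∀ d ∈ Icc 1 (2 * k), ∀ d' ∈ Icc 1 (2 * k), d ≠ d' → (d ∈ S ↔ d' ∈ S) → ∀ (u : ZMod (4 * k + 1))
      (b b' : Bool), g a m u d b ≠ g a m u d' b' := by
    intro d hd d' hd' hne hSS u b b' heq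
    obtain ⟨h1, h2, h3, h4⟩ := ha d hd d' hd' hne hSS
    have hm : ∀ w w', (w = a d ∨ w = a d + d) → (w' = a d' ∨ w' = a d' + d') → m w ≠ m w' := by
      intro w w' hw hw' h
      have h5 := hminj w (hends d hd w hw) w' (hends d' hd' w' hw') h
      rcases hw with rfl | rfl <;> rcases hw' with rfl | rfl
      · exact h1 h5
      · exact h2 h5
      · exact h3 h5
      · exact h4 h5
    rcases g_mem (a := a) (m := m) (u := u) (d := d) b with h | h | h
    · rcases g_mem (a := a) (m := m) (u := u) (d := d') b' with h' | h' | h'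
      · have hu := g_zero (hd0 d hd) (hm1' d hd) (hm2' d hd) h
        have hu' := g_zero (hd0 d' hd') (hm1' d' hd') (hm2' d' hd') h'
        exact hm u u hu hu' rfl
      · rw [h, h'] at heq
        exact hm1' d' hd' heq.symm
      · rw [h, h'] at heq
        exact hm2' d' hd' heq.symm
    · rcases g_mem (a := a) (m := m) (u := u) (d := d') b' with h' | h' | h'
      · rw [h, h'] at heq
        exact hm1' d hd heq
      · rw [h, h'] at heq
        exact hm _ _ (Or.inl rfl) (Or.inl rfl) heq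
      · rw [h, h'] at heq
        exact hm _ _ (Or.inl rfl) (Or.inr rfl) heq
    · rcases g_mem (a := a) (m := m) (u := u) (d := d') b' with h' | h' | h'
      · rw [h, h'] at heq
        exact hm2' d hd heq
      · rw [h, h'] at heq
        exact hm _ _ (Or.inr rfl) (Or.inl rfl) heq
      · rw [h, h'] at heq
        exact hm _ _ (Or.inr rfl) (Or.inr rfl) heq
  -- the spoke
  have hspoke : ∀ d ∈ Icc 1 (2 * k), ∀ (u : ZMod (4 * k + 1)) (b : Bool), g a m u d b ≠ m u := by
    intro d hd u b heq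
    have hat := fun h => g_at (u := u) hk (hd0 d hd) (hm1' d hd) (hm2' d hd) (hm12 d hd) b h
    rcases g_mem (a := a) (m := m) (u := u) (d := d) b with h | h | h
    · have hu := g_zero (hd0 d hd) (hm1' d hd) (hm2' d hd) h
      exact hat hu heq
    · have h1 : m (a d) = m u := h.symm.trans heq
      have hu : u ∈ W := by
        by_contra hu
        rw [hm0 u hu] at h1
        exact hm1' d hd h1
      have h2 := hminj _ (hends d hd _ (Or.inl rfl)) u hu h1
      exact hat (Or.inl h2.symm) heq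
    · have h1 : m (a d + d) = m u := h.symm.trans heq
      have hu : u ∈ W := by
        by_contra hu
        rw [hm0 u hu] at h1
        exact hm2' d hd h1
      have h2 := hminj _ (hends d hd _ (Or.inr rfl)) u hu h1
      exact hat (Or.inr h2.symm) heq
  -- the relation between edges and colours
  let R : Sym2 (ZMod (4 * k + 1) × Fin 2) → Fin (2 * k + 1) → Prop := fun e c =>
    (∃ x, e = s((x, 0), (x, 1)) ∧ c = m x) ∨
      ∃ (x : ZMod (4 * k + 1)) (i : Fin 2) (d : ℕ), d ∈ Icc 1 (2 * k) ∧ (i = 0 ↔ d ∈ S) ∧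
        e = s((x, i), (x + d, i)) ∧ c = g a m x d true
  have hloc : ∀ e c, R e c → ∀ (u : ZMod (4 * k + 1)) (i : Fin 2), (u, i) ∈ e →
      (e = s((u, 0), (u, 1)) ∧ c = m u) ∨
        ∃ (d : ℕ) (b : Bool), d ∈ Icc 1 (2 * k) ∧ (i = 0 ↔ d ∈ S) ∧ e = E u i d b ∧ c = g a m u d b := by
    intro e c hR u i hu
    rcases hR with ⟨x, rfl, rfl⟩ | ⟨x, j, d, hd, hj, rfl, rfl⟩
    · left
      rw [Sym2.mem_iff] at hu
      rcases hu with h | h
      · have h1 : u = x := congrArg Prod.fst h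
        rw [h1]
        exact ⟨rfl, rfl⟩
      · have h1 : u = x := congrArg Prod.fst h
        rw [h1]
        exact ⟨rfl, rfl⟩
    · right
      rw [Sym2.mem_iff] at hu
      rcases hu with h | h
      · have h1 : u = x := congrArg Prod.fst h
        have h2 : i = j := congrArg Prod.snd h
        subst h1 h2
        exact ⟨d, true, hd, hj, (if_pos rfl).symm, rfl⟩
      · have h1 : u = x + d := congrArg Prod.fst h
        have h2 : i = j := congrArg Prod.snd h
        subst h2
        have h3 : x = u - d := by rw [h1, add_sub_cancel_right]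
        refine ⟨d, false, hd, hj, ?_, ?_⟩
        · unfold E
          rw [if_neg (by decide), ← h3, h1]
        · unfold g
          rw [if_pos rfl, if_neg (by decide), ← h3]
  -- every edge has a colour
  have hval : ∀ (x y : ZMod (4 * k + 1)), ∃ z, ((z = x ∧ y = x + ((min (x - y).val (y - x).val : ℕ) : ZMod (4 * k + 1))) ∨
      (z = y ∧ x = y + ((min (x - y).val (y - x).val : ℕ) : ZMod (4 * k + 1)))) := by
    intro x y
    rcases min_choice (x - y).val (y - x).val with h | h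
    · refine ⟨y, Or.inr ⟨rfl, ?_⟩⟩
      rw [h, ZMod.natCast_zmod_val]
      ring
    · refine ⟨x, Or.inl ⟨rfl, ?_⟩⟩
      rw [h, ZMod.natCast_zmod_val]
      ring
  have hex : ∀ e ∈ G.edgeSet, ∃ c, R e c := by
    intro e he
    induction e using Sym2.ind with
    | _ p q =>
      rw [SimpleGraph.mem_edgeSet, hG] at he
      obtain ⟨x, i⟩ := p
      obtain ⟨y, j⟩ := q
      simp only at he
      rcases he with ⟨hi, hj, hmem⟩ | ⟨hi, hj, hmem⟩ | ⟨hxy, hij⟩
      · subst hi hj
        obtain ⟨z, ⟨rfl, h⟩ | ⟨rfl, h⟩⟩ := hval x y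
        · refine ⟨_, Or.inr ⟨z, 0, _, hS hmem, ⟨fun _ => hmem, fun _ => rfl⟩, ?_, rfl⟩⟩
          rw [← h]
        · refine ⟨_, Or.inr ⟨z, 0, _, hS hmem, ⟨fun _ => hmem, fun _ => rfl⟩, ?_, rfl⟩⟩
          rw [← h, Sym2.eq_swap]
      · subst hi hj
        rw [mem_sdiff] at hmem
        obtain ⟨z, ⟨rfl, h⟩ | ⟨rfl, h⟩⟩ := hval x y
        · refine ⟨_, Or.inr ⟨z, 1, _, hmem.1, ⟨fun h => absurd h (by decide), fun h => absurd h hmem.2⟩, ?_, rfl⟩⟩
          rw [← h]
        · refine ⟨_, Or.inr ⟨z, 1, _, hmem.1, ⟨fun h => absurd h (by decide), fun h => absurd h hmem.2⟩, ?_, rfl⟩⟩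
          rw [← h, Sym2.eq_swap]
      · subst hxy
        refine ⟨m x, Or.inl ⟨x, ?_, rfl⟩⟩
        have h01 : (i = 0 ∧ j = 1) ∨ (i = 1 ∧ j = 0) := fin_two i j hij
        rcases h01 with ⟨rfl, rfl⟩ | ⟨rfl, rfl⟩
        · rfl
        · exact Sym2.eq_swap
  choose! c hc using hex
  refine ⟨c, ?_⟩
  rintro e he f hf hef ⟨⟨u, i⟩, hue, huf⟩ hcc
  have h1 := hloc e (c e) (hc e he) u i hue
  have h2 := hloc f (c f) (hc f hf) u i huf
  rcases h1 with ⟨he1, hc1⟩ | ⟨d, b, hd, hid, he1, hc1⟩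
  · rcases h2 with ⟨hf1, hc2⟩ | ⟨d', b', hd', hid', hf1, hc2⟩
    · exact hef (he1.trans hf1.symm)
    · rw [hc1, hc2] at hcc
      exact hspoke d' hd' u b' hcc.symm
  · rcases h2 with ⟨hf1, hc2⟩ | ⟨d', b', hd', hid', hf1, hc2⟩
    · rw [hc1, hc2] at hcc
      exact hspoke d hd u b hcc
    · rw [hc1, hc2] at hcc
      by_cases hdd : d = d'
      · subst hdd
        cases b <;> cases b'
        · exact hef (he1.trans hf1.symm)
        · exact g_ne hk (hd0 d hd) (hm1' d hd) (hm2' d hd) (hm12 d hd) hcc.symm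
        · exact g_ne hk (hd0 d hd) (hm1' d hd) (hm2' d hd) (hm12 d hd) hcc
        · exact hef (he1.trans hf1.symm)
      · exact hdiff d hd d' hd' hdd (hid.symm.trans hid') u b b' hcc

end Pool.Agent.P8H73.XP
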